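import Mathlib
import Pool.Agent.V11217.Omega1

/-!
A ZFC example of a (zero-dimensional Hausdorff) omega-Lindelof space that is not k-Lindelof.
-/

namespace Pool.Agent.Results.MP_a2c218_gt.OmegaNotK

open Set

/-- `𝒰` is an omega-cover of `X`: a family of open sets, not containing `X` itself, such that
every finite subset of `X` lies in a member. -/
def IsOmegaCover {X : Type*} [TopologicalSpace X] (𝒰 : Set (Set X)) : Prop :=
  (∀ U ∈ 𝒰, IsOpen U) ∧ Set.univ ∉ 𝒰 ∧ ∀ F : Set X, F.Finite → ∃ U ∈ 𝒰, F ⊆ U

/-- `𝒰` is a k-cover of `X`: a family of open sets, not containing `X` itself, such that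
every compact subset of `X` lies in a member. -/
def IsKCover {X : Type*} [TopologicalSpace X] (𝒰 : Set (Set X)) : Prop :=
  (∀ U ∈ 𝒰, IsOpen U) ∧ Set.univ ∉ 𝒰 ∧ ∀ K : Set X, IsCompact K → ∃ U ∈ 𝒰, K ⊆ U

/-- Every omega-cover contains a countable omega-cover. -/
def OmegaLindelof (X : Type*) [TopologicalSpace X] : Prop :=
  ∀ 𝒰 : Set (Set X), IsOmegaCover 𝒰 → ∃ 𝒱 ⊆ 𝒰, 𝒱.Countable ∧ IsOmegaCover 𝒱

/-- Every k-cover contains a countable k-cover. -/
def KLindelof (X : Type*) [TopologicalSpace X] : Prop :=
  ∀ 𝒰 : Set (Set X), IsKCover 𝒰 → ∃ 𝒱 ⊆ 𝒰, 𝒱.Countable ∧ IsKCover 𝒱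

section Construction

variable {W : Type} [LinearOrder W] (e : W → W → ℕ)

/-- The graph of the injection `e γ` below `γ`. -/
def graph (γ : W) : Set (W × ℕ) := {p | p.1 < γ ∧ p.2 = e γ p.1}

/-- The ideal of countable sets almost disjoint from all graphs. -/
def Small (x : Set (W × ℕ)) : Prop := x.Countable ∧ ∀ γ, (x ∩ graph e γ).Finite

theorem Small.mono {e : W → W → ℕ} {x y : Set (W × ℕ)} (hx : Small e x) (h : y ⊆ x) :
    Small e y :=
  ⟨hx.1.mono h, fun γ => (hx.2 γ).subset (inter_subset_inter_left _ h)⟩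

theorem Small.union {e : W → W → ℕ} {x y : Set (W × ℕ)} (hx : Small e x) (hy : Small e y) :
    Small e (x ∪ y) :=
  ⟨hx.1.union hy.1, fun γ => by
    rw [union_inter_distrib_right]; exact (hx.2 γ).union (hy.2 γ)⟩

theorem small_of_finite {e : W → W → ℕ} {x : Set (W × ℕ)} (hx : x.Finite) : Small e x :=
  ⟨hx.countable, fun _ => hx.subset inter_subset_left⟩

/-- The topology on `W × ℕ` plus a point at infinity. -/
@[reducible] def topo : TopologicalSpace (Option (W × ℕ)) where
  IsOpen U := none ∈ U → Small e (some ⁻¹' Uᶜ)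
  isOpen_univ := fun _ => by simpa using small_of_finite (e := e) Set.finite_empty
  isOpen_inter := by
    intro s t hs ht h
    have := (hs h.1).union (ht h.2)
    refine this.mono ?_
    intro x hx
    simp only [mem_preimage, mem_compl_iff, mem_inter_iff] at hx
    by_cases hxs : some x ∈ s
    · right; exact fun hxt => hx ⟨hxs, hxt⟩
    · left; exact hxs
  isOpen_sUnion := by
    intro 𝒮 h hn
    obtain ⟨s, hs, hns⟩ := hn
    refine (h s hs hns).mono ?_
    intro x hx hxs
    exact hx ⟨s, hs, hxs⟩

end Construction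

theorem result : ∃ (X : Type) (_ : TopologicalSpace X), T2Space X ∧
    (∃ B : Set (Set X), TopologicalSpace.IsTopologicalBasis B ∧ ∀ U ∈ B, IsClopen U) ∧
    OmegaLindelof X ∧ ¬ KLindelof X := by
  obtain ⟨W, _, hwf, hc, hb⟩ := Pool.Agent.V11217.exists_omega1
  classical
  have hinj : ∀ γ : W, ∃ f : W → ℕ, Set.InjOn f (Set.Iio γ) := by
    intro γ
    exact Set.countable_iff_exists_injOn.1 (hc γ)
  choose e he using hinj
  let T := topo e
  have hopen : ∀ U : Set (Option (W × ℕ)), IsOpen U ↔ (none ∈ U → Small e (some ⁻¹' Uᶜ)) :=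
    fun U => Iff.rfl
  have hiso : ∀ U : Set (Option (W × ℕ)), none ∉ U → IsOpen U := by
    intro U hU
    rw [hopen]
    exact fun h => absurd h hU
  have hclopen1 : ∀ p : W × ℕ, IsClopen ({some p} : Set (Option (W × ℕ))) := by
    intro p
    refine ⟨?_, hiso _ (by simp)⟩
    rw [← isOpen_compl_iff, hopen]
    intro _
    apply small_of_finite
    refine (Set.finite_singleton p).subset ?_
    intro q hq
    simpa using hq
  have hclopen2 : ∀ U : Set (Option (W × ℕ)), IsOpen U → none ∈ U → IsClopen U := by
    intro U hU hn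
    refine ⟨?_, hU⟩
    rw [← isOpen_compl_iff]
    exact hiso _ (by simpa using hn)
  refine ⟨Option (W × ℕ), T, ?_, ?_, ?_, ?_⟩
  · -- Hausdorff
    refine ⟨?_⟩
    intro x y hxy
    rcases x with _ | p
    · rcases y with _ | q
      · exact absurd rfl hxy
      · exact ⟨{some q}ᶜ, {some q}, (hclopen1 q).1.isOpen_compl, (hclopen1 q).2, by simp,
          rfl, disjoint_compl_left⟩
    · exact ⟨{some p}, {some p}ᶜ, (hclopen1 p).2, (hclopen1 p).1.isOpen_compl, rfl,
        by simpa using hxy.symm, disjoint_compl_right⟩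
  · -- zero-dimensional
    refine ⟨{U | IsClopen U}, ?_, fun U hU => hU⟩
    apply TopologicalSpace.isTopologicalBasis_of_isOpen_of_nhds
    · intro U hU; exact hU.2
    · intro a U ha hU
      rcases a with _ | p
      · exact ⟨U, hclopen2 U hU ha, ha, Subset.rfl⟩
      · exact ⟨{some p}, hclopen1 p, rfl, by simpa using ha⟩
  · -- omega-Lindelof
    intro 𝒰 h𝒰
    obtain ⟨h1, h2, h3⟩ := h𝒰
    have hch : ∀ F : Finset (W × ℕ), ∃ U ∈ 𝒰, insert none (some '' (↑F : Set (W × ℕ))) ⊆ U :=
      fun F => h3 _ ((F.finite_toSet.image _).insert _)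
    choose U hU hFU using hch
    have hsmall : ∀ F, Small e (some ⁻¹' (U F)ᶜ) :=
      fun F => (hopen _).1 (h1 _ (hU F)) (hFU F (mem_insert _ _))
    obtain ⟨A, -, hAc, hA⟩ := Pool.Agent.V11217.exists_countable_closed
      (fun F => some ⁻¹' (U F)ᶜ) (fun F => (hsmall F).1) ∅ Set.countable_empty
    refine ⟨U '' {F | (↑F : Set (W × ℕ)) ⊆ A}, ?_, ?_, ?_, ?_, ?_⟩
    · rintro _ ⟨F, _, rfl⟩; exact hU F
    · exact (Pool.Agent.V11217.countable_finsets_subset hAc).image _
    · rintro _ ⟨F, _, rfl⟩; exact h1 _ (hU F)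
    · rintro ⟨F, _, hF⟩; exact h2 (hF ▸ hU F)
    · intro G hG
      have hfin : (some ⁻¹' G ∩ A : Set (W × ℕ)).Finite :=
        (hG.preimage (Option.some_injective _).injOn).subset inter_subset_left
      refine ⟨U hfin.toFinset, ⟨hfin.toFinset, ?_, rfl⟩, ?_⟩
      · intro x hx
        simp only [Finite.coe_toFinset] at hx
        exact hx.2
      · intro x hx
        rcases x with _ | p
        · exact hFU _ (mem_insert _ _)
        · by_cases hp : p ∈ A
          · apply hFU
            right
            exact ⟨p, by simpa using ⟨hx, hp⟩, rfl⟩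
          · by_contra hcon
            apply hp
            refine hA hfin.toFinset ?_ hcon
            intro y hy
            simp only [Finite.coe_toFinset] at hy
            exact hy.2
  · -- not k-Lindelof
    intro hK
    let V : W → Set (Option (W × ℕ)) := fun i => {x | ∀ n, x ≠ some (i, n)}
    have hVcompl : ∀ i, (some ⁻¹' (V i)ᶜ : Set (W × ℕ)) = {p | p.1 = i} := by
      intro i
      ext ⟨j, n⟩
      simp [V]
    have hsub : ∀ (n : ℕ) (γ : W), ({p : W × ℕ | p.2 = n} ∩ graph e γ).Subsingleton := by
      rintro n γ ⟨i, a⟩ ⟨hi1, hi2, hi3⟩ ⟨j, b⟩ ⟨hj1, hj2, hj3⟩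
      simp only [mem_setOf_eq] at hi1 hj1 hi2 hi3 hj2 hj3
      subst hi1 hj1
      have : i = j := he γ hi2 hj2 (hi3.symm.trans hj3)
      rw [this]
    have hVopen : ∀ i, IsOpen (V i) := by
      intro i
      rw [hopen]
      intro _
      rw [hVcompl]
      refine ⟨?_, ?_⟩
      · have : {p : W × ℕ | p.1 = i} = Set.range (fun n : ℕ => (i, n)) := by
          ext ⟨j, n⟩
          constructor
          · intro h; exact ⟨n, Prod.ext (Eq.symm h) rfl⟩
          · rintro ⟨m, hm⟩; exact (congrArg Prod.fst hm).symm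
        rw [this]
        exact countable_range _
      · intro γ
        refine (Set.finite_singleton (i, e γ i)).subset ?_
        rintro ⟨j, n⟩ ⟨h1, h2, h3⟩
        simp only [mem_setOf_eq] at h1 h2 h3
        subst h1
        simp [h3]
    have hcover : IsKCover (Set.range V) := by
      refine ⟨?_, ?_, ?_⟩
      · rintro _ ⟨i, rfl⟩; exact hVopen i
      · rintro ⟨i, hi⟩
        have : (some (i, 0) : Option (W × ℕ)) ∈ V i := by rw [hi]; trivial
        exact this 0 rfl
      · intro K hKc
        by_contra hcon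
        have hcon2 : ∀ i, ∃ n, (some (i, n) : Option (W × ℕ)) ∈ K := by
          intro i
          by_contra hi
          push Not at hi
          apply hcon
          refine ⟨V i, ⟨i, rfl⟩, ?_⟩
          intro x hx n hxn
          exact hi n (hxn ▸ hx)
        choose k hk using hcon2
        have hunc : ∃ n, ¬ {i | k i = n}.Countable := by
          by_contra hall
          push Not at hall
          have huniv : (Set.univ : Set W).Countable := by
            have : (Set.univ : Set W) = ⋃ n, {i | k i = n} := by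
              ext i; simp
            rw [this]
            exact countable_iUnion hall
          obtain ⟨w, hw⟩ := hb _ huniv
          exact lt_irrefl w (hw w trivial)
        obtain ⟨n, hn⟩ := hunc
        have hinf : {i | k i = n}.Infinite := fun hf => hn hf.countable
        obtain ⟨S, hS, hSc, hSinf⟩ : ∃ S ⊆ {i | k i = n}, S.Countable ∧ S.Infinite := by
          let g := hinf.natEmbedding
          refine ⟨Set.range (fun m => (g m : W)), ?_, countable_range _, ?_⟩
          · rintro _ ⟨m, rfl⟩; exact (g m).2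
          · exact Set.infinite_range_of_injective
              (fun a b hab => g.injective (Subtype.ext hab))
        have hxsmall : Small e {p : W × ℕ | p.1 ∈ S ∧ p.2 = n} := by
          refine ⟨?_, ?_⟩
          · refine (hSc.image (fun i => (i, n))).mono ?_
            rintro ⟨i, m⟩ ⟨hi, hm⟩
            simp only at hi hm
            subst hm
            exact ⟨i, hi, rfl⟩
          · intro γ
            refine ((hsub n γ).finite).subset ?_
            rintro p ⟨hp1, hp2⟩
            exact ⟨hp1.2, hp2⟩
        have hclosed : IsClosed (some '' {p : W × ℕ | p.1 ∈ S ∧ p.2 = n}) := by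
          rw [← isOpen_compl_iff, hopen]
          intro _
          refine hxsmall.mono ?_
          intro p hp
          simp only [compl_compl, mem_preimage] at hp
          obtain ⟨q, hq, hqp⟩ := hp
          rw [← Option.some_injective _ hqp]
          exact hq
        have hsubK : some '' {p : W × ℕ | p.1 ∈ S ∧ p.2 = n} ⊆ K := by
          rintro _ ⟨⟨i, m⟩, ⟨hi, hm⟩, rfl⟩
          simp only at hi hm
          subst hm
          have := hk i
          rw [hS hi] at this
          exact this
        have hcomp := hKc.of_isClosed_subset hclosed hsubK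
        obtain ⟨t, ht⟩ := hcomp.elim_finite_subcover (fun p : W × ℕ => {some p})
          (fun p => (hclopen1 p).2) (by
            rintro _ ⟨p, _, rfl⟩
            exact mem_iUnion.2 ⟨p, rfl⟩)
        apply hSinf
        refine ((t.finite_toSet).image Prod.fst).subset ?_
        intro i hi
        have := ht ⟨(i, n), ⟨hi, rfl⟩, rfl⟩
        simp only [mem_iUnion, mem_singleton_iff, Option.some.injEq, exists_prop] at this
        obtain ⟨q, hq, hqe⟩ := this
        exact ⟨q, hq, by rw [← hqe]⟩
    obtain ⟨𝒱, h𝒱sub, h𝒱c, h𝒱⟩ := hK _ hcover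
    have hVinj : Function.Injective V := by
      intro i j hij
      by_contra hne
      have h1 : (some (i, 0) : Option (W × ℕ)) ∈ V j := by
        intro n hn
        simp only [Option.some.injEq, Prod.mk.injEq] at hn
        exact hne hn.1
      rw [← hij] at h1
      exact h1 0 rfl
    have hIc : (V ⁻¹' 𝒱).Countable := h𝒱c.preimage hVinj
    obtain ⟨γ, hγ⟩ := hb _ hIc
    have hcomp : IsCompact (insert none (some '' graph e γ) : Set (Option (W × ℕ))) := by
      apply isCompact_of_finite_subcover
      intro ι U hU hsub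
      have hnone : (none : Option (W × ℕ)) ∈ ⋃ i, U i := hsub (mem_insert _ _)
      obtain ⟨i0, hi0⟩ := mem_iUnion.1 hnone
      have hfin : ((some ⁻¹' (U i0)ᶜ : Set (W × ℕ)) ∩ graph e γ).Finite :=
        ((hopen _).1 (hU i0) hi0).2 γ
      have hch : ∀ p ∈ graph e γ, ∃ i, (some p : Option (W × ℕ)) ∈ U i := by
        intro p hp
        exact mem_iUnion.1 (hsub (mem_insert_of_mem _ ⟨p, hp, rfl⟩))
      haveI : Nonempty ι := ⟨i0⟩
      choose! f hf using hch
      refine ⟨insert i0 (hfin.toFinset.image f), ?_⟩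
      intro x hx
      rcases hx with rfl | ⟨p, hp, rfl⟩
      · simp only [mem_iUnion]
        exact ⟨i0, by simp, hi0⟩
      · simp only [mem_iUnion]
        by_cases hpU : (some p : Option (W × ℕ)) ∈ U i0
        · exact ⟨i0, by simp, hpU⟩
        · refine ⟨f p, ?_, hf p hp⟩
          simp only [Finset.mem_insert, Finset.mem_image, Finite.mem_toFinset]
          right
          exact ⟨p, ⟨hpU, hp⟩, rfl⟩
    obtain ⟨U, hU𝒱, hKU⟩ := h𝒱.2.2 _ hcomp
    obtain ⟨i, rfl⟩ := h𝒱sub hU𝒱
    have hi : i < γ := hγ i hU𝒱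
    have := hKU (mem_insert_of_mem _ ⟨(i, e γ i), ⟨hi, rfl⟩, rfl⟩)
    exact this (e γ i) rfl

end Pool.Agent.Results.MP_a2c218_gt.OmegaNotK
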